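import Mathlib
import Pool.Agent.Lib.MP_a2e505_lc.Defs
import Pool.Agent.Lib.MP_a2e505_lc.Third
import Pool.Agent.Lib.MP_a2e505_lc.Exist

/-!
There are `Ω`-numbers one of which is strictly below the other in the strong weak
truth-table (sw) reducibility.
-/

namespace Pool.Agent.Results.MP_a2e505_lc.StrictSWOmega

open Pool.Agent.OmegaTT

/-- There are `Ω`-numbers `Ω₀`, `Ω₁` such that `Ω₀` is strictly sw-below `Ω₁`. -/
theorem result : ∃ Ω₀ Ω₁ : ℕ → Bool, OmegaNumber Ω₀ ∧ OmegaNumber Ω₁ ∧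
    SWReducible Ω₀ Ω₁ ∧ ¬ SWReducible Ω₁ Ω₀ :=
  ⟨third Om, Om, ⟨MLRandom_third omega_exists.1, LeftCE_third omega_exists.2⟩, omega_exists,
    sw_third Om, not_sw_third omega_exists.1⟩

end Pool.Agent.Results.MP_a2e505_lc.StrictSWOmega
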