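import Mathlib
import Pool.Agent.Lib.MP_a2e505_lc.Defs
import Pool.Agent.Lib.MP_a2e505_lc.TT
import Pool.Agent.Lib.MP_a2e505_lc.WTT

/-!
Truth-table reducibility is symmetric on the `Ω`-numbers: no `Ω`-number is strictly
tt-below another one.
-/

namespace Pool.Agent.Results.MP_a2e505_lc.TTSymmetricOmega

open Pool.Agent.OmegaTT

/-- For all `Ω`-numbers `Ω₀`, `Ω₁`: if `Ω₀ ≤_tt Ω₁` then `Ω₁ ≤_tt Ω₀`. -/
theorem result (Ω₀ Ω₁ : ℕ → Bool) (h₀ : OmegaNumber Ω₀) (h₁ : OmegaNumber Ω₁)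
    (h : TTReducible Ω₀ Ω₁) : TTReducible Ω₁ Ω₀ := by
  obtain ⟨f, hf⟩ := exists_appr h₀
  obtain ⟨g, hg⟩ := exists_appr h₁
  obtain ⟨n0, hn0⟩ := wtt_decode hf hg
  refine tt_symm h₁.1 h comp_mm ?_ (re_GG' hf.comp hg.comp) GG'_unique hn0
  intro a b hab
  unfold mm
  omega

end Pool.Agent.Results.MP_a2e505_lc.TTSymmetricOmega
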